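import Pool.Agent.J6H84.LM.Stm

/-!
# Module LINEP: point sets with many injective directions, prime order
-/

set_option autoImplicit false

namespace Pool.Agent.J6H24.LM

open Finset Pool.Agent.J6H84.LM Pool.Agent.TH784.SD

/-! ### Transfer to an isomorphic field -/

theorem lp_equiv {K K' : Type} [Field K] [Fintype K] [Field K'] [Fintype K'] (e : K ≃+* K') (N : ℕ)
    (h : LineProp K' N) : LineProp K N := by
  classical
  intro ι _ f hι hf U hU hinj
  let F : K × K → K' × K' := fun z => (e z.1, e z.2)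
  have hF : Function.Injective F := by
    intro a b hab
    have h1 : e a.1 = e b.1 := congrArg Prod.fst hab
    have h2 : e a.2 = e b.2 := congrArg Prod.snd hab
    exact Prod.ext (e.injective h1) (e.injective h2)
  have hdot : ∀ a z : K × K, dot (F a) (F z) = e (dot a z) := by
    intro a z
    simp [dot, F]
  obtain ⟨w, hw, hc⟩ := h ι (fun i => F (f i)) hι (by
      intro i j hij heq
      apply hf i j hij
      apply e.injective
      rw [map_mul, map_mul]
      exact heq) (U.image F) (by
      rw [card_image_of_injective _ hF, hU]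
      exact Fintype.card_congr e.toEquiv) (by
      intro i z hz z' hz' heq
      obtain ⟨a, ha, rfl⟩ := mem_image.1 hz
      obtain ⟨b, hb, rfl⟩ := mem_image.1 hz'
      rw [hdot, hdot] at heq
      rw [hinj i a ha b hb (e.injective heq)])
  refine ⟨(e.symm w.1, e.symm w.2), ?_, ?_⟩
  · intro h0
    apply hw
    have h1 : e.symm w.1 = 0 := congrArg Prod.fst h0
    have h2 : e.symm w.2 = 0 := congrArg Prod.snd h0
    rw [map_eq_zero_iff _ e.symm.injective] at h1 h2
    exact Prod.ext h1 h2
  · intro z hz z' hz'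
    have h1 := hc (F z) (mem_image_of_mem F hz) (F z') (mem_image_of_mem F hz')
    have h2 : w = F (e.symm w.1, e.symm w.2) := by simp [F]
    rw [h2, hdot, hdot] at h1
    exact e.injective h1

/-! ### The prime field -/

theorem lp_zmod (p : ℕ) [hp : Fact p.Prime] (hp2 : p ≠ 2) : LineProp (ZMod p) ((p + 1) / 2) := by
  classical
  intro ι _ f hι hf U hU hinj
  have hpr := hp.out
  rw [ZMod.card] at hU
  have hp3 : 3 ≤ p := by
    have := hpr.two_le
    omega
  -- two points
  obtain ⟨z, hz, z', hz', hzz⟩ : ∃ z ∈ U, ∃ z' ∈ U, z ≠ z' := by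
    have h1 : 1 < U.card := by omega
    obtain ⟨a, ha, b, hb, hab⟩ := one_lt_card.1 h1
    exact ⟨a, ha, b, hb, hab⟩
  have hf0 : ∀ i, f i ≠ 0 := by
    intro i h0
    apply hzz
    apply hinj i z hz z' hz'
    rw [h0]
    simp [dot]
  -- injective forms have vanishing moments
  have hmom : ∀ w : ZMod p × ZMod p, Set.InjOn (lf w) (U : Set (ZMod p × ZMod p)) →
      ∀ k, k < p - 1 → mom U w k = 0 := by
    intro w hw k hk
    have h2 : U.image (lf w) = univ := by
      apply eq_univ_of_card
      rw [card_image_of_injOn hw, hU, ZMod.card]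
    unfold mom
    rw [← sum_image (f := fun c => c ^ k) hw, h2]
    exact FiniteField.sum_pow_lt_card_sub_one (K := ZMod p) k (by rw [ZMod.card]; exact hk)
  have hlf : ∀ (c : ZMod p) (i : ι) (x : ZMod p × ZMod p),
      lf (c * (f i).1, c * (f i).2) x = c * dot (f i) x := by
    intro c i x
    simp only [lf, dot]
    ring
  have hscale : ∀ (c : ZMod p) (i : ι), c ≠ 0 →
      Set.InjOn (lf (c * (f i).1, c * (f i).2)) (U : Set (ZMod p × ZMod p)) := by
    intro c i hc x hx y hy hxy
    rw [hlf, hlf] at hxy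
    exact hinj i x hx y hy (mul_left_cancel₀ hc hxy)
  -- all moments of small degree vanish
  have hall : ∀ k, 1 ≤ k → 2 * k ≤ p - 1 → ∀ v, mom U v k = 0 := by
    intro k hk hk' v
    by_contra hv
    have h1 := zeros U k hk v hv
    let g : ZMod p × ι → ZMod p × ZMod p := fun x => (x.1 * (f x.2).1, x.1 * (f x.2).2)
    have hg : Set.InjOn g (((univ : Finset (ZMod p)).erase 0 ×ˢ (univ : Finset ι) :
        Finset (ZMod p × ι)) : Set (ZMod p × ι)) := by
      rintro ⟨c, i⟩ hc ⟨c', j⟩ hc' h
      have hc0 : c ≠ 0 := by simpa using hc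
      have hc0' : c' ≠ 0 := by simpa using hc'
      have e1 : c * (f i).1 = c' * (f j).1 := congrArg Prod.fst h
      have e2 : c * (f i).2 = c' * (f j).2 := congrArg Prod.snd h
      have hij : i = j := by
        by_contra hij
        apply hf i j hij
        have h3 : (c * c') * ((f i).1 * (f j).2) = (c * c') * ((f i).2 * (f j).1) := by
          linear_combination (c' * (f j).2) * e1 - (c' * (f j).1) * e2
        exact mul_left_cancel₀ (mul_ne_zero hc0 hc0') h3
      subst hij
      have hcc : c = c' := by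
        rcases eq_or_ne (f i).1 0 with h0 | h0
        · have h4 : (f i).2 ≠ 0 := fun h5 => hf0 i (Prod.ext h0 h5)
          exact mul_right_cancel₀ h4 e2
        · exact mul_right_cancel₀ h0 e1
      rw [hcc]
    have hsub : (((univ : Finset (ZMod p)).erase 0 ×ˢ (univ : Finset ι)).image g) ⊆
        univ.filter fun w : ZMod p × ZMod p => w ≠ 0 ∧ mom U w k = 0 := by
      intro w hw
      obtain ⟨⟨c, i⟩, hc, rfl⟩ := mem_image.1 hw
      have hc0 : c ≠ 0 := by simpa using hc
      rw [mem_filter]
      refine ⟨mem_univ _, ?_, hmom _ (hscale c i hc0) k (by omega)⟩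
      intro h0
      have e1 : c * (f i).1 = 0 := congrArg Prod.fst h0
      have e2 : c * (f i).2 = 0 := congrArg Prod.snd h0
      exact hf0 i (Prod.ext ((mul_eq_zero.1 e1).resolve_left hc0)
        ((mul_eq_zero.1 e2).resolve_left hc0))
    have h2 := card_le_card hsub
    rw [card_image_of_injOn hg, card_product, card_erase_of_mem (mem_univ _), card_univ,
      ZMod.card, card_univ] at h2
    have h3 : (p - 1) * ((p + 1) / 2) ≤ (p - 1) * Fintype.card ι := Nat.mul_le_mul_left _ hι
    have h4 : (p - 1) * k < (p - 1) * ((p + 1) / 2) :=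
      Nat.mul_lt_mul_of_pos_left (by omega) (by omega)
    have h5 : k * (p - 1) = (p - 1) * k := Nat.mul_comm _ _
    omega
  -- a form which is not injective
  have hw0 : ((z'.2 - z.2, z.1 - z'.1) : ZMod p × ZMod p) ≠ 0 := by
    intro h0
    apply hzz
    have e1 : z'.2 - z.2 = 0 := congrArg Prod.fst h0
    have e2 : z.1 - z'.1 = 0 := congrArg Prod.snd h0
    exact Prod.ext (sub_eq_zero.1 e2) (sub_eq_zero.1 e1).symm
  refine ⟨(z'.2 - z.2, z.1 - z'.1), hw0, ?_⟩
  have hcard : Fintype.card U = p := by rw [Fintype.card_coe, hU]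
  rcases lac hp2 hcard (fun t : U => lf (z'.2 - z.2, z.1 - z'.1) t.1) (by
    intro j hj hj'
    rw [sum_coe_sort U (fun t => lf (z'.2 - z.2, z.1 - z'.1) t ^ j)]
    exact hall j hj hj' _) with h1 | ⟨c, h1⟩
  · exfalso
    have h2 : lf (z'.2 - z.2, z.1 - z'.1) z = lf (z'.2 - z.2, z.1 - z'.1) z' := by
      simp only [lf]
      ring
    have h3 := @h1 ⟨z, hz⟩ ⟨z', hz'⟩ h2
    exact hzz (congrArg Subtype.val h3)
  · intro x hx y hy
    have h2 := h1 ⟨x, hx⟩
    have h3 := h1 ⟨y, hy⟩
    exact h2.trans h3.symm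

/-- **LINEP** -/
theorem main : S_LineP := by
  intro K _ _ hp hp2
  have : Fact (Fintype.card K).Prime := ⟨hp⟩
  exact lp_equiv (ZMod.ringEquivOfPrime K hp rfl).symm _ (lp_zmod _ hp2)

end Pool.Agent.J6H24.LM
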